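import Pool.Agent.Helper93.LH.Hf
import Pool.Agent.Helper49.SH.Df
import Pool.Agent.Helper13.LT.Rtm
import Pool.Agent.Helper4.LT.Zt

/-!
PROJECT ALLQ (MP_274814_nt), K_base, part T1: the symmetrised theta function `f z * f (-z)` of one CM
type satisfies the hypotheses of the evaluation theorem (helper93, files Helper93/SH/V*.lean).
-/

set_option autoImplicit false

namespace Pool.Agent.Helper12.SH

open Finset LTG Pool.Agent.Helper13.LT Pool.Agent.Helper34.LT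
open Pool.Agent.Helper93.LH (gam gam_cocompact)
open Pool.Agent.Helper49.SH (em rv Iq)

noncomputable section

/-! ### Taylor coefficients -/

theorem AE_of_RT {ι : Type} [Fintype ι] {f : (ι → ℂ) → ℂ} (h : ∃ D : ℕ, 1 ≤ D ∧ RT D 1 f) :
    ∃ a, PS a f ∧ ∀ m, IsAlgebraic ℚ (a m) := by
  obtain ⟨D, _, A, hA⟩ := h
  refine ⟨_, hA, fun m => ?_⟩
  have h1 : (A m : ℂ) / ((D : ℂ) ^ (∑ u, m u + 1) * ∏ u, ((m u).factorial : ℂ)) =
      algebraMap ℚ ℂ ((A m : ℚ) / ((D : ℚ) ^ (∑ u, m u + 1) * ∏ u, ((m u).factorial : ℚ))) := by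
    simp
  rw [h1]
  exact isAlgebraic_algebraMap _

theorem isAlg_sum {J : Type} (s : Finset J) (x : J → ℂ) (h : ∀ j ∈ s, IsAlgebraic ℚ (x j)) :
    IsAlgebraic ℚ (∑ j ∈ s, x j) :=
  mem_algebraicClosure_iff.1
    (sum_mem fun j hj => mem_algebraicClosure_iff.2 (h j hj))

/-- product of two entire functions with algebraic Taylor coefficients -/
theorem AE_mul {ι : Type} [Fintype ι] {f g : (ι → ℂ) → ℂ}
    (h : ∃ a, PS a f ∧ ∀ m, IsAlgebraic ℚ (a m)) (h' : ∃ a, PS a g ∧ ∀ m, IsAlgebraic ℚ (a m)) :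
    ∃ a, PS a (fun z => f z * g z) ∧ ∀ m, IsAlgebraic ℚ (a m) := by
  obtain ⟨a, ha, ha'⟩ := h
  obtain ⟨b, hb, hb'⟩ := h'
  refine ⟨_, ha.mul hb, fun m => ?_⟩
  unfold cv
  exact isAlg_sum _ _ fun p _ => (ha' _).mul (hb' _)

theorem AE_neg {ι : Type} [Fintype ι] {f : (ι → ℂ) → ℂ}
    (h : ∃ a, PS a f ∧ ∀ m, IsAlgebraic ℚ (a m)) :
    ∃ a, PS a (fun z => f (-z)) ∧ ∀ m, IsAlgebraic ℚ (a m) := by
  obtain ⟨a, ha, ha'⟩ := h
  have h1 := ha.scale fun _ => (-1 : ℂ)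
  have h2 : (fun z : ι → ℂ => f fun u => (-1 : ℂ) * z u) = fun z => f (-z) := by
    funext z
    congr 1
    funext u
    simp
  rw [h2] at h1
  refine ⟨_, h1, fun m => (ha' m).mul ?_⟩
  have h3 : ∏ u, (-1 : ℂ) ^ m u = algebraMap ℚ ℂ (∏ u, (-1 : ℚ) ^ m u) := by simp
  rw [h3]
  exact isAlgebraic_algebraMap _

/-- T1 (a) -/
theorem AE_f2 {ι : Type} [Fintype ι] {f : (ι → ℂ) → ℂ} (h : ∃ D : ℕ, 1 ≤ D ∧ RT D 1 f) :
    ∃ a, PS a (fun z => f z * f (-z)) ∧ ∀ m, IsAlgebraic ℚ (a m) :=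
  AE_mul (AE_of_RT h) (AE_neg (AE_of_RT h))

/-! ### the symmetrised function is not zero -/

theorem f2_ne {ι : Type} [Fintype ι] {f : (ι → ℂ) → ℂ} (hd : Differentiable ℂ f)
    (hne : ∃ z, f z ≠ 0) : (fun z => f z * f (-z)) ≠ 0 := by
  obtain ⟨z0, hz0⟩ := hne
  intro h0
  have hl : Differentiable ℂ (fun t : ℂ => t • z0) := differentiable_id.smul_const z0
  have hl' : Differentiable ℂ (fun t : ℂ => -(t • z0)) := hl.neg
  have h1 : AnalyticOnNhd ℂ (fun t : ℂ => f (t • z0)) Set.univ :=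
    (hd.comp hl).differentiableOn.analyticOnNhd isOpen_univ
  have h2 : AnalyticOnNhd ℂ (fun t : ℂ => f (-(t • z0))) Set.univ :=
    (hd.comp hl').differentiableOn.analyticOnNhd isOpen_univ
  have h3 : ∀ t ∈ (Set.univ : Set ℂ), f (t • z0) * f (-(t • z0)) = 0 := fun t _ =>
    congrFun h0 (t • z0)
  rcases h1.eq_zero_or_eq_zero_of_mul_eq_zero h2 h3 isPreconnected_univ with h | h
  · exact hz0 (by simpa using h 1 (Set.mem_univ _))
  · exact hz0 (by simpa using h (-1) (Set.mem_univ _))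

section

variable (q : ℕ) (s : Finset ℕ) (ρ : ℕ → ℂ) (κ : s → ℂ) (c : Polynomial ℤ → ℂ)

/-- the lattice -/
def Lt : AddSubgroup (s → ℂ) := (gam q s ρ).range

theorem mem_Lt {l : s → ℂ} : l ∈ Lt q s ρ ↔ ∃ P : Polynomial ℤ, lamS q s ρ P = l := by
  unfold Lt
  rw [AddMonoidHom.mem_range]
  rfl

/-- the form of the multipliers -/
def Bs (x z : s → ℂ) : ℂ := ∑ u, κ u * (starRingEnd ℂ) (x u / ρ u) * z u

theorem Bs_add_left (x y z : s → ℂ) : Bs s ρ κ (x + y) z = Bs s ρ κ x z + Bs s ρ κ y z := by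
  unfold Bs
  rw [← Finset.sum_add_distrib]
  refine Finset.sum_congr rfl fun u _ => ?_
  rw [Pi.add_apply, add_div, map_add]
  ring

theorem Bs_smul_left (a : ℂ) (x z : s → ℂ) :
    Bs s ρ κ (a • x) z = (starRingEnd ℂ) a * Bs s ρ κ x z := by
  unfold Bs
  rw [Finset.mul_sum]
  refine Finset.sum_congr rfl fun u _ => ?_
  rw [Pi.smul_apply, smul_eq_mul, mul_div_assoc, map_mul]
  ring

theorem Bs_add_right (x y z : s → ℂ) : Bs s ρ κ x (y + z) = Bs s ρ κ x y + Bs s ρ κ x z := by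
  unfold Bs
  rw [← Finset.sum_add_distrib]
  refine Finset.sum_congr rfl fun u _ => ?_
  rw [Pi.add_apply]
  ring

theorem Bs_smul_right (a : ℂ) (x z : s → ℂ) : Bs s ρ κ x (a • z) = a * Bs s ρ κ x z := by
  unfold Bs
  rw [Finset.mul_sum]
  refine Finset.sum_congr rfl fun u _ => ?_
  rw [Pi.smul_apply, smul_eq_mul]
  ring

theorem Bs_lin (x : s → ℂ) : IsLinearMap ℂ (Bs s ρ κ x) :=
  ⟨fun y z => Bs_add_right s ρ κ x y z, fun a z => Bs_smul_right s ρ κ a x z⟩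

theorem Bs_single (x : s → ℂ) (v : s) :
    Bs s ρ κ x (Pi.single v 1) = κ v * (starRingEnd ℂ) (x v / ρ v) := by
  unfold Bs
  rw [Finset.sum_eq_single v]
  · rw [Pi.single_eq_same, mul_one]
  · intro u _ hu
    rw [Pi.single_eq_of_ne hu, mul_zero]
  · intro h
    exact absurd (Finset.mem_univ v) h

theorem Bs_nd (hρ : ∀ u ∈ s, ρ u ≠ 0) (hκ : ∀ u, κ u ≠ 0) (v : s → ℂ)
    (h : ∀ x, Bs s ρ κ x v = 0) : v = 0 := by
  funext u
  have h1 := h (Pi.single u 1)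
  unfold Bs at h1
  rw [Finset.sum_eq_single u] at h1
  · rw [Pi.single_eq_same] at h1
    have h2 : (starRingEnd ℂ) (1 / ρ u) ≠ 0 :=
      (map_ne_zero _).2 (one_div_ne_zero (hρ u u.2))
    rcases mul_eq_zero.1 h1 with h3 | h3
    · exact absurd h3 (mul_ne_zero (hκ u) h2)
    · simpa using h3
  · intro w _ hw
    rw [Pi.single_eq_of_ne hw, zero_div, map_zero, mul_zero, zero_mul]
  · intro h
    exact absurd (Finset.mem_univ u) h

theorem Bs_im (hρ : ∀ u ∈ s, ρ u ≠ 0) (hre : ∀ u : s, (κ u * ρ u).im = 0) (x : s → ℂ) :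
    (Bs s ρ κ x x).im = 0 := by
  unfold Bs
  rw [Complex.im_sum]
  refine Finset.sum_eq_zero fun u _ => ?_
  have h1 : κ u * (starRingEnd ℂ) (x u / ρ u) * x u =
      (κ u * ρ u) * ((Complex.normSq (x u / ρ u) : ℝ) : ℂ) := by
    rw [Complex.normSq_eq_conj_mul_self]
    have := hρ u u.2
    field_simp
  rw [h1, Complex.im_mul_ofReal, hre u, zero_mul]

/-- T1 (c) -/
theorem Lt_cocompact (hs : HS q s) (hρ : ∀ u ∈ s, ρ u ≠ 0) :
    ∃ R : ℝ, ∀ z : s → ℂ, ∃ l ∈ Lt q s ρ, ‖z - l‖ ≤ R := by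
  obtain ⟨R, hR⟩ := gam_cocompact q s ρ hs hρ
  refine ⟨R, fun z => ?_⟩
  obtain ⟨a, ha⟩ := hR z
  exact ⟨gam q s ρ a, ⟨a, rfl⟩, ha⟩

theorem Bs_lamS (hρ : ∀ u ∈ s, ρ u ≠ 0) (P : Polynomial ℤ) (z : s → ℂ) :
    Bs s ρ κ (lamS q s ρ P) z = ∑ u, κ u * (starRingEnd ℂ) (pt q s P u) * z u := by
  unfold Bs
  refine Finset.sum_congr rfl fun u _ => ?_
  unfold lamS
  rw [mul_div_cancel_left₀ _ (hρ u u.2)]

/-- T1 (b) -/
theorem f2_qp {f : (s → ℂ) → ℂ} (hρ : ∀ u ∈ s, ρ u ≠ 0) (hq : QPS q s ρ κ c f)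
    (hne : ∃ z, f z ≠ 0) :
    ∀ l ∈ Lt q s ρ, ∀ z : s → ℂ, f (z + l) * f (-(z + l)) =
      Complex.exp (2 * Bs s ρ κ l z + Bs s ρ κ l l) * (f z * f (-z)) := by
  intro l hl z
  obtain ⟨P, rfl⟩ := (mem_Lt q s ρ).1 hl
  have hneg : ∀ w : s → ℂ, f (w + lamS q s ρ (-P)) =
      Complex.exp (-Bs s ρ κ (lamS q s ρ P) w + c (-P)) * f w := by
    intro w
    rw [hq (-P) w, Bs_lamS q s ρ κ hρ P w]
    congr 3
    rw [← Finset.sum_neg_distrib]
    refine Finset.sum_congr rfl fun u _ => ?_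
    have : pt q s (-P) u = -pt q s P u := by simp [pt]
    rw [this, map_neg]
    ring
  have hpos : ∀ w : s → ℂ, f (w + lamS q s ρ P) =
      Complex.exp (Bs s ρ κ (lamS q s ρ P) w + c P) * f w := by
    intro w
    rw [hq P w, Bs_lamS q s ρ κ hρ P w]
  have hc : Complex.exp (c P + c (-P)) = Complex.exp (Bs s ρ κ (lamS q s ρ P) (lamS q s ρ P)) := by
    obtain ⟨w, hw⟩ := hne
    have h1 := hpos (w + lamS q s ρ (-P))
    have h2 : w + lamS q s ρ (-P) + lamS q s ρ P = w := by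
      rw [lamS_neg]
      simp
    rw [h2, hneg w, lamS_neg, Bs_add_right] at h1
    have h3 : Bs s ρ κ (lamS q s ρ P) (-lamS q s ρ P) =
        -Bs s ρ κ (lamS q s ρ P) (lamS q s ρ P) := by
      have := Bs_smul_right s ρ κ (-1) (lamS q s ρ P) (lamS q s ρ P)
      simpa using this
    rw [h3, ← mul_assoc, ← Complex.exp_add] at h1
    have h4 : Complex.exp (Bs s ρ κ (lamS q s ρ P) w +
        -Bs s ρ κ (lamS q s ρ P) (lamS q s ρ P) + c P +
        (-Bs s ρ κ (lamS q s ρ P) w + c (-P))) = 1 := by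
      have h5 : (1 : ℂ) * f w = Complex.exp (Bs s ρ κ (lamS q s ρ P) w +
        -Bs s ρ κ (lamS q s ρ P) (lamS q s ρ P) + c P +
        (-Bs s ρ κ (lamS q s ρ P) w + c (-P))) * f w := by
        rw [one_mul]
        exact h1
      exact (mul_right_cancel₀ hw h5).symm
    have h6 : Bs s ρ κ (lamS q s ρ P) w + -Bs s ρ κ (lamS q s ρ P) (lamS q s ρ P) + c P +
        (-Bs s ρ κ (lamS q s ρ P) w + c (-P)) =
        (c P + c (-P)) - Bs s ρ κ (lamS q s ρ P) (lamS q s ρ P) := by ring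
    rw [h6, Complex.exp_sub, div_eq_one_iff_eq (Complex.exp_ne_zero _)] at h4
    exact h4
  have h7 : -(z + lamS q s ρ P) = -z + lamS q s ρ (-P) := by
    rw [lamS_neg]
    abel
  have h8 : Bs s ρ κ (lamS q s ρ P) (-z) = -Bs s ρ κ (lamS q s ρ P) z := by
    have := Bs_smul_right s ρ κ (-1) (lamS q s ρ P) z
    simpa using this
  rw [h7, hpos z, hneg (-z), h8]
  have h9 : Complex.exp (Bs s ρ κ (lamS q s ρ P) z + c P) * f z *
      (Complex.exp (- -Bs s ρ κ (lamS q s ρ P) z + c (-P)) * f (-z)) =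
      (Complex.exp (2 * Bs s ρ κ (lamS q s ρ P) z) * Complex.exp (c P + c (-P))) *
        (f z * f (-z)) := by
    rw [← Complex.exp_add]
    have h10 : Complex.exp (Bs s ρ κ (lamS q s ρ P) z + c P) *
        Complex.exp (- -Bs s ρ κ (lamS q s ρ P) z + c (-P)) =
        Complex.exp (2 * Bs s ρ κ (lamS q s ρ P) z + (c P + c (-P))) := by
      rw [← Complex.exp_add]
      congr 1
      ring
    rw [← h10]
    ring
  rw [h9, hc, ← Complex.exp_add]

/-! ### rational points -/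

/-- the point of `C^s` with rational coordinates `t` -/
def zp (t : Iq q → ℚ) : s → ℂ := fun u => ρ u * em q u (rv t)

theorem conj_em (hq : q ≠ 0) (u : ℕ) (hu : u ≤ q) (t : Iq q → ℚ) :
    (starRingEnd ℂ) (em q u (rv t)) = em q (q - u) (rv t) := by
  unfold Pool.Agent.Helper49.SH.em rv
  rw [map_sum]
  refine Finset.sum_congr rfl fun i _ => ?_
  rw [map_mul, pow_mul, map_pow, conj_zt_pow q u hq hu, ← pow_mul]
  congr 1
  exact map_ratCast (starRingEnd ℂ) (t i)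

theorem exists_mul_mem (t : Iq q → ℚ) :
    ∃ n : ℕ, 2 ≤ n ∧ ((n : ℂ) - 1) • zp q s ρ t ∈ Lt q s ρ := by
  classical
  set N : ℕ := ∏ i, (t i).den with hN
  have hN1 : 1 ≤ N := by
    rw [hN]
    exact Nat.one_le_iff_ne_zero.2 (Finset.prod_ne_zero_iff.2 fun i _ => (t i).den_nz)
  have hint : ∀ i, ∃ a : ℤ, (N : ℚ) * t i = a := by
    intro i
    obtain ⟨m, hm⟩ : (t i).den ∣ N := Finset.dvd_prod_of_mem _ (Finset.mem_univ i)
    refine ⟨m * (t i).num, ?_⟩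
    rw [hm]
    push_cast
    have := Rat.den_mul_eq_num (t i)
    linear_combination (m : ℚ) * this
  choose a ha using hint
  refine ⟨N + 1, by omega, (mem_Lt q s ρ).2
    ⟨∑ i : Iq q, Polynomial.C (a i) * Polynomial.X ^ (i : ℕ), ?_⟩⟩
  funext u
  unfold lamS zp
  rw [Pi.smul_apply, smul_eq_mul]
  push_cast
  rw [add_sub_cancel_right]
  have h1 : pt q s (∑ i : Iq q, Polynomial.C (a i) * Polynomial.X ^ (i : ℕ)) u =
      (N : ℂ) * em q u (rv t) := by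
    unfold pt Pool.Agent.Helper49.SH.em rv
    rw [map_sum, Finset.mul_sum]
    refine Finset.sum_congr rfl fun i _ => ?_
    have h2 : ((a i : ℤ) : ℂ) = (N : ℂ) * (t i : ℂ) := by
      have := congrArg (fun x : ℚ => (x : ℂ)) (ha i)
      push_cast at this
      exact this.symm
    rw [map_mul, map_pow, Polynomial.aeval_X, Polynomial.aeval_C, ← pow_mul, ← mul_assoc, ← h2]
    simp
  rw [h1]
  ring

theorem Bs_zp_single (hs : HS q s) (hρ : ∀ u ∈ s, ρ u ≠ 0) (t : Iq q → ℚ) (v : s) :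
    Bs s ρ κ (zp q s ρ t) (Pi.single v 1) = κ v * em q (q - v) (rv t) := by
  rw [Bs_single]
  unfold zp
  have h := hs.mem v v.2
  have h3 := hs.three
  rw [mul_div_cancel_left₀ _ (hρ v v.2), conj_em q (by omega) v (by omega)]

theorem Bs_zp (hs : HS q s) (hρ : ∀ u ∈ s, ρ u ≠ 0) (t : Iq q → ℚ) :
    Bs s ρ κ (zp q s ρ t) (zp q s ρ t) =
      ∑ u : s, κ u * ρ u * em q u (rv t) * em q (q - u) (rv t) := by
  unfold Bs
  refine Finset.sum_congr rfl fun u _ => ?_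
  have h := hs.mem u u.2
  have h3 := hs.three
  unfold zp
  rw [mul_div_cancel_left₀ _ (hρ u u.2), conj_em q (by omega) u (by omega)]
  ring

end

end

end Pool.Agent.Helper12.SH
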